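import Pool.Agent.Helper55.RG.Spec

set_option autoImplicit false

open FF Polynomial

namespace Pool.Agent.Helper31.RG.VAL

open Pool.Agent.Helper55.RG

theorem main : S_VAL := by
  intro κ N _ _ _ _ _ _ P x hx
  have hsurj : Function.Surjective (algebraMap κ P.RF) :=
    IsAlgClosed.algebraMap_bijective_of_isIntegral.surjective
  obtain ⟨c, hc⟩ := hsurj (P.red x)
  refine ⟨c, ?_⟩
  rw [Place.algebraMap_RF] at hc
  have h1 : P.red (x - algebraMap κ N c) = 0 := by
    rw [P.red_sub hx (P.reg_const c), hc, sub_self]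
  have h2 : P.Reg (x - algebraMap κ N c) := by
    rw [sub_eq_add_neg]
    exact P.reg_add hx (P.reg_neg (P.reg_const c))
  rcases (P.red_eq_zero_iff h2).1 h1 with h | h
  · left
    exact sub_eq_zero.1 h
  · right
    exact h

end Pool.Agent.Helper31.RG.VAL
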