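import Pool.Agent.Helper31.RG.UPL
import Pool.Agent.Helper31.RG.VAL

set_option autoImplicit false

open FF Polynomial

namespace Pool.Agent.Helper31.RG.EXP

open Pool.Agent.Helper55.RG Pool.Agent.Helper31.RG.UPL

section
variable {κ N : Type} [Field κ] [Field N] [Algebra κ N] (P : Place κ N) (π : P.O)

/-- `f` is the expansion of `x` -/
def Rel (x : P.O) (f : PowerSeries κ) : Prop :=
  ∀ n : ℕ, ∃ q : κ[X], (PowerSeries.X : PowerSeries κ) ^ n ∣ f - (q : PowerSeries κ) ∧
    π ^ n ∣ x - psi P π q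

theorem Rel.add {x y : P.O} {f g : PowerSeries κ} (h1 : Rel P π x f) (h2 : Rel P π y g) :
    Rel P π (x + y) (f + g) := by
  intro n
  obtain ⟨q, hq, hq'⟩ := h1 n
  obtain ⟨r, hr, hr'⟩ := h2 n
  refine ⟨q + r, ?_, ?_⟩
  · rw [Polynomial.coe_add, add_sub_add_comm]
    exact dvd_add hq hr
  · rw [map_add, add_sub_add_comm]
    exact dvd_add hq' hr'

theorem Rel.mul {x y : P.O} {f g : PowerSeries κ} (h1 : Rel P π x f) (h2 : Rel P π y g) :
    Rel P π (x * y) (f * g) := by
  intro n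
  obtain ⟨q, hq, hq'⟩ := h1 n
  obtain ⟨r, hr, hr'⟩ := h2 n
  refine ⟨q * r, ?_, ?_⟩
  · rw [Polynomial.coe_mul]
    have : f * g - (q : PowerSeries κ) * (r : PowerSeries κ) =
      f * (g - (r : PowerSeries κ)) + (f - (q : PowerSeries κ)) * (r : PowerSeries κ) := by ring
    rw [this]
    exact dvd_add (dvd_mul_of_dvd_right hr _) (dvd_mul_of_dvd_left hq _)
  · rw [map_mul]
    have : x * y - psi P π q * psi P π r =
      x * (y - psi P π r) + (x - psi P π q) * psi P π r := by ring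
    rw [this]
    exact dvd_add (dvd_mul_of_dvd_right hr' _) (dvd_mul_of_dvd_left hq' _)

theorem Rel.poly (q : κ[X]) : Rel P π (psi P π q) (q : PowerSeries κ) := by
  intro n
  exact ⟨q, by simp, by simp⟩

theorem Rel.neg {x : P.O} {f : PowerSeries κ} (h1 : Rel P π x f) : Rel P π (-x) (-f) := by
  intro n
  obtain ⟨q, hq, hq'⟩ := h1 n
  refine ⟨-q, ?_, ?_⟩
  · have : -f - ((-q : κ[X]) : PowerSeries κ) = -(f - (q : PowerSeries κ)) := by
      rw [Polynomial.coe_neg]; ring
    rw [this]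
    exact dvd_neg.2 hq
  · have : -x - psi P π (-q) = -(x - psi P π q) := by rw [map_neg]; ring
    rw [this]
    exact dvd_neg.2 hq'

theorem dvd_of_psi (hπ : P.ord (π : N) = 1) (n : ℕ) (q : κ[X]) (h : π ^ n ∣ psi P π q) :
    X ^ n ∣ q := by
  by_cases hq0 : q = 0
  · rw [hq0]; exact dvd_zero _
  obtain ⟨r, hr, hr'⟩ := exists_eq_pow_rootMultiplicity_mul_and_not_dvd q hq0 0
  set m := q.rootMultiplicity 0
  have hr0 : r.eval 0 ≠ 0 := by rwa [Polynomial.dvd_iff_isRoot, IsRoot.def] at hr'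
  rw [C_0, sub_zero] at hr
  have hP : 0 < P.ord ((π : N) - algebraMap κ N 0) := by
    rw [map_zero, sub_zero, hπ]; exact one_pos
  obtain ⟨e1, e2⟩ := ord_eval P hP hr0
  have hπ0 : (π : N) ≠ 0 := by
    intro h; rw [h, P.ord_zero] at hπ; exact zero_ne_one hπ
  have e3 : P.ord (psi P π q : N) = m := by
    rw [psi_coe, hr, map_mul, map_pow, aeval_X, P.ord_mul (pow_ne_zero _ hπ0) e1, P.ord_pow, hπ,
      e2]
    ring
  obtain ⟨y, hy⟩ := h
  have hq1 : (psi P π q : N) ≠ 0 := by
    rw [psi_coe, hr, map_mul, map_pow, aeval_X]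
    exact mul_ne_zero (pow_ne_zero _ hπ0) e1
  have hy' : (psi P π q : N) = (π : N) ^ n * (y : N) := by rw [hy]; rfl
  have hy0 : (y : N) ≠ 0 := by
    intro h; rw [hy', h, mul_zero] at hq1; exact hq1 rfl
  rw [hy', P.ord_mul (pow_ne_zero _ hπ0) hy0, P.ord_pow, hπ] at e3
  have e4 := (P.reg_iff hy0).1 y.2
  have e5 : n ≤ m := by
    have : (n : ℤ) ≤ m := by linarith
    exact_mod_cast this
  rw [hr]
  exact dvd_mul_of_dvd_left (pow_dvd_pow _ e5) _

theorem Rel.uniq0 (hπ : P.ord (π : N) = 1) {f : PowerSeries κ} (h : Rel P π 0 f) : f = 0 := by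
  ext n
  obtain ⟨q, hq, hq'⟩ := h (n + 1)
  rw [zero_sub, dvd_neg] at hq'
  have h1 := dvd_of_psi P π hπ (n + 1) q hq'
  have h2 : (PowerSeries.X : PowerSeries κ) ^ (n + 1) ∣ (q : PowerSeries κ) := by
    obtain ⟨r, rfl⟩ := h1
    refine ⟨(r : PowerSeries κ), ?_⟩
    simp
  have h3 : (PowerSeries.X : PowerSeries κ) ^ (n + 1) ∣ f := by
    have := dvd_add hq h2
    rwa [sub_add_cancel] at this
  rw [PowerSeries.X_pow_dvd_iff] at h3
  rw [h3 n (Nat.lt_succ_self n), map_zero]

theorem Rel.uniq (hπ : P.ord (π : N) = 1) {x : P.O} {f g : PowerSeries κ} (h : Rel P π x f)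
    (h' : Rel P π x g) : f = g := by
  have h1 := Rel.add P π h (Rel.neg P π h')
  rw [add_neg_cancel] at h1
  have := Rel.uniq0 P π hπ h1
  rwa [← sub_eq_add_neg, sub_eq_zero] at this

theorem Rel.exists (hπ : P.ord (π : N) = 1)
    (hval : ∀ x : N, P.Reg x → ∃ c : κ, x = algebraMap κ N c ∨ 0 < P.ord (x - algebraMap κ N c))
    (x : P.O) : ∃ f, Rel P π x f := by
  have hπ0 : (π : N) ≠ 0 := by
    intro h; rw [h, P.ord_zero] at hπ; exact zero_ne_one hπ
  have step : ∀ x : P.O, ∃ (c : κ) (y : P.O), x = phi P c + π * y := by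
    intro x
    obtain ⟨c, hc⟩ := hval x x.2
    rcases hc with hc | hc
    · refine ⟨c, 0, ?_⟩
      rw [mul_zero, add_zero]
      exact Subtype.ext hc
    · have hne : (x : N) - algebraMap κ N c ≠ 0 := by
        intro h; rw [h, P.ord_zero] at hc; exact lt_irrefl _ hc
      have hreg : P.Reg (((x : N) - algebraMap κ N c) / (π : N)) := by
        right
        rw [P.ord_div hne hπ0, hπ]
        omega
      refine ⟨c, ⟨((x : N) - algebraMap κ N c) / (π : N), hreg⟩, ?_⟩
      apply Subtype.ext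
      change (x : N) = algebraMap κ N c + (π : N) * (((x : N) - algebraMap κ N c) / (π : N))
      field_simp
      ring
  choose c y hcy using step
  let seq : ℕ → P.O := fun n => Nat.rec x (fun _ z => y z) n
  let f : PowerSeries κ := PowerSeries.mk fun n => c (seq n)
  let q : ℕ → κ[X] := fun n => ∑ i ∈ Finset.range n, C (c (seq i)) * X ^ i
  have hx : ∀ n, x = psi P π (q n) + π ^ n * seq n := by
    intro n
    induction n with
    | zero => simp [q, seq]
    | succ n ih =>
      have e1 : q (n + 1) = q n + C (c (seq n)) * X ^ n := by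
        simp only [q, Finset.sum_range_succ]
      have e2 : psi P π (C (c (seq n)) * X ^ n) = phi P (c (seq n)) * π ^ n := by
        simp [psi]
      have e3 : seq (n + 1) = y (seq n) := rfl
      rw [e1, map_add, e2, e3]
      conv_lhs => rw [ih]
      have e4 := hcy (seq n)
      linear_combination (π ^ n) * e4
  refine ⟨f, fun n => ⟨q n, ?_, ⟨seq n, ?_⟩⟩⟩
  · rw [PowerSeries.X_pow_dvd_iff]
    intro m hm
    rw [map_sub, Polynomial.coeff_coe]
    simp only [f, q, PowerSeries.coeff_mk, Polynomial.finsetSum_coeff, Polynomial.coeff_C_mul,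
      Polynomial.coeff_X_pow]
    rw [Finset.sum_eq_single m]
    · simp
    · intro b _ hb
      rw [if_neg (Ne.symm hb), mul_zero]
    · intro h
      exact absurd (Finset.mem_range.2 hm) h
  · rw [sub_eq_iff_eq_add, add_comm]
    exact hx n

end

theorem order_nonneg {κ : Type} [Field κ] {f : PowerSeries κ} (hf : f ≠ 0) :
    0 ≤ (HahnSeries.ofPowerSeries ℤ κ f).order := by
  have h0 : HahnSeries.ofPowerSeries ℤ κ f ≠ 0 := by
    rw [Ne, map_eq_zero_iff _ HahnSeries.ofPowerSeries_injective]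
    exact hf
  by_contra hc
  push Not at hc
  apply mt HahnSeries.coeff_order_eq_zero.1 h0
  have := PowerSeries.coeff_coe (R := κ) f (HahnSeries.ofPowerSeries ℤ κ f).order
  rw [if_pos hc] at this
  exact this

theorem main : S_EXP := by
  intro κ N _ _ _ _ _ _ P π hπ
  have hπ0 : π ≠ 0 := by
    intro h; rw [h, P.ord_zero] at hπ; exact zero_ne_one hπ
  have hπr : P.Reg π := Or.inr (by omega)
  let π' : P.O := ⟨π, hπr⟩
  have hπ' : P.ord (π' : N) = 1 := hπ
  have hex := Rel.exists P π' hπ' (VAL.main κ N P)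
  choose F hF using hex
  let j₀ : P.O →+* PowerSeries κ :=
    { toFun := F
      map_one' := by
        refine Rel.uniq P π' hπ' (hF 1) ?_
        have := Rel.poly P π' 1
        rwa [map_one, Polynomial.coe_one] at this
      map_mul' := fun x y => Rel.uniq P π' hπ' (hF _) (Rel.mul P π' (hF x) (hF y))
      map_zero' := by
        refine Rel.uniq P π' hπ' (hF 0) ?_
        have := Rel.poly P π' 0
        rwa [map_zero, Polynomial.coe_zero] at this
      map_add' := fun x y => Rel.uniq P π' hπ' (hF _) (Rel.add P π' (hF x) (hF y)) }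
  have hj₀π : j₀ π' = PowerSeries.X := by
    refine Rel.uniq P π' hπ' (hF π') ?_
    have := Rel.poly P π' X
    rw [Polynomial.coe_X] at this
    have h2 : psi P π' X = π' := by simp [psi]
    rwa [h2] at this
  have hj₀C : ∀ c, j₀ (phi P c) = PowerSeries.C c := by
    intro c
    refine Rel.uniq P π' hπ' (hF _) ?_
    have := Rel.poly P π' (C c)
    rw [Polynomial.coe_C] at this
    have h2 : psi P π' (C c) = phi P c := by simp [psi]
    rwa [h2] at this
  -- the decomposition of regular elements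
  have hdec : ∀ x : N, x ≠ 0 → 0 ≤ P.ord x → ∃ u : P.Oˣ, ∃ hx : P.Reg x,
      (⟨x, hx⟩ : P.O) = π' ^ (P.ord x).toNat * u := by
    intro x hx h
    have h1 : P.ord (x / π ^ (P.ord x).toNat) = 0 := by
      rw [P.ord_div hx (pow_ne_zero _ hπ0), P.ord_pow, hπ]
      omega
    have h2 : IsUnit (⟨x / π ^ (P.ord x).toNat, Or.inr h1.ge⟩ : P.O) :=
      (P.isUnit_O_iff _).2 ⟨div_ne_zero hx (pow_ne_zero _ hπ0), h1⟩
    obtain ⟨u, hu⟩ := h2
    refine ⟨u, Or.inr h, ?_⟩
    rw [hu]
    apply Subtype.ext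
    change x = π ^ (P.ord x).toNat * (x / π ^ (P.ord x).toNat)
    rw [mul_div_cancel₀]
    exact pow_ne_zero _ hπ0
  let g : P.O →+* LaurentSeries κ := (HahnSeries.ofPowerSeries ℤ κ).comp j₀
  have hg : Function.Injective g := by
    rw [injective_iff_map_eq_zero]
    rintro ⟨x, hx⟩ h
    by_contra hne
    have hx0 : x ≠ 0 := fun h => hne (Subtype.ext h)
    obtain ⟨u, hx', hu⟩ := hdec x hx0 ((P.reg_iff hx0).1 hx)
    have h2 : j₀ ⟨x, hx⟩ = 0 := by
      rw [← map_eq_zero_iff (HahnSeries.ofPowerSeries ℤ κ) HahnSeries.ofPowerSeries_injective]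
      exact h
    rw [hu, map_mul, map_pow, hj₀π] at h2
    rcases mul_eq_zero.1 h2 with h3 | h3
    · exact PowerSeries.X_ne_zero (eq_zero_of_pow_eq_zero h3)
    · exact (u.isUnit.map j₀).ne_zero h3
  let j : N →+* LaurentSeries κ := IsFractionRing.lift (A := P.O) (K := N) hg
  have hj : ∀ x : P.O, j (x : N) = HahnSeries.ofPowerSeries ℤ κ (j₀ x) := by
    intro x
    exact IsFractionRing.lift_algebraMap (A := P.O) (K := N) hg x
  have hord : ∀ x : N, x ≠ 0 → 0 ≤ P.ord x → (j x).order = P.ord x := by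
    intro x hx h
    obtain ⟨u, hx', hu⟩ := hdec x hx h
    have h1 : j x = HahnSeries.ofPowerSeries ℤ κ (j₀ ⟨x, hx'⟩) := hj ⟨x, hx'⟩
    have hu1 : HahnSeries.ofPowerSeries ℤ κ (j₀ u) ≠ 0 := by
      rw [Ne, map_eq_zero_iff _ HahnSeries.ofPowerSeries_injective]
      exact (u.isUnit.map j₀).ne_zero
    have hu2 : HahnSeries.ofPowerSeries ℤ κ (j₀ (u⁻¹ : P.Oˣ)) ≠ 0 := by
      rw [Ne, map_eq_zero_iff _ HahnSeries.ofPowerSeries_injective]
      exact ((u⁻¹).isUnit.map j₀).ne_zero
    have h2 : (HahnSeries.ofPowerSeries ℤ κ (j₀ u)).order = 0 := by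
      have e1 := order_nonneg (f := j₀ u) (u.isUnit.map j₀).ne_zero
      have e2 := order_nonneg (f := j₀ (u⁻¹ : P.Oˣ)) ((u⁻¹).isUnit.map j₀).ne_zero
      have e3 : HahnSeries.ofPowerSeries ℤ κ (j₀ u) * HahnSeries.ofPowerSeries ℤ κ (j₀ (u⁻¹ : P.Oˣ))
          = 1 := by
        rw [← map_mul, ← map_mul, Units.mul_inv, map_one, map_one]
      have e4 := HahnSeries.order_mul hu1 hu2
      rw [e3, HahnSeries.order_one] at e4
      omega
    have hX : (HahnSeries.ofPowerSeries ℤ κ PowerSeries.X) =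
        (HahnSeries.single (1 : ℤ) (1 : κ) : LaurentSeries κ) := HahnSeries.ofPowerSeries_X
    have hX0 : (HahnSeries.single (1 : ℤ) (1 : κ) : LaurentSeries κ) ≠ 0 :=
      HahnSeries.single_ne_zero one_ne_zero
    rw [h1, hu, map_mul, map_pow, hj₀π, map_mul, map_pow, hX,
      HahnSeries.order_mul (pow_ne_zero _ hX0) hu1, h2, add_zero, HahnSeries.order_pow,
      HahnSeries.order_single one_ne_zero]
    simp [h]
  refine ⟨j, ?_, ?_, ?_⟩
  · intro c
    have := hj (phi P c)
    rw [hj₀C, HahnSeries.ofPowerSeries_C] at this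
    exact this
  · have := hj π'
    rw [hj₀π, HahnSeries.ofPowerSeries_X] at this
    exact this
  · intro x hx
    rcases le_or_gt 0 (P.ord x) with h | h
    · exact hord x hx h
    · have h1 := hord x⁻¹ (inv_ne_zero hx) (by rw [P.ord_inv]; omega)
      have h2 : j x * j x⁻¹ = 1 := by rw [← map_mul, mul_inv_cancel₀ hx, map_one]
      have h3 := HahnSeries.order_mul ((map_ne_zero j).2 hx) ((map_ne_zero j).2 (inv_ne_zero hx))
      rw [h2, HahnSeries.order_one, h1, P.ord_inv] at h3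
      omega

end Pool.Agent.Helper31.RG.EXP
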