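import Pool.Agent.Helper55.RG.Spec

set_option autoImplicit false

open FF Polynomial

namespace Pool.Agent.Helper31.RG.UPL

open Pool.Agent.Helper55.RG

theorem ev_key {κ : Type} [Field κ] (a : κ) (G : κ[X][X]) (B : κ[X]) :
    (G.eval B).eval a = (G.map (evalRingHom a)).eval (B.eval a) := by
  have h := Polynomial.eval₂_at_apply (p := G) (evalRingHom a) B
  rw [Polynomial.eval_map]
  simpa using h.symm

/-- approximations: polynomials `B` with `B(a) = b` and `(X - a)^n ∣ g(X, B(X))`. -/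
theorem approx {κ : Type} [Field κ] (g : κ[X][X]) (a b : κ)
    (h0 : (g.map (evalRingHom a)).eval b = 0)
    (h1 : ((g.map (evalRingHom a)).derivative).eval b ≠ 0) (n : ℕ) :
    ∃ B : κ[X], B.eval a = b ∧ (X - C a) ^ (n + 1) ∣ g.eval B := by
  induction n with
  | zero =>
    refine ⟨C b, by simp, ?_⟩
    rw [zero_add, pow_one, Polynomial.dvd_iff_isRoot, IsRoot.def, ev_key, eval_C]
    exact h0
  | succ n ih =>
    obtain ⟨B, hB, q, hq⟩ := ih
    -- choose c with q(a) + c g_Y(a,b) = 0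
    set d := ((g.map (evalRingHom a)).derivative).eval b with hd
    let c : κ := - (q.eval a) / d
    refine ⟨B + C c * (X - C a) ^ (n + 1), by simp [hB], ?_⟩
    obtain ⟨k, hk⟩ := Polynomial.binomExpansion g B (C c * (X - C a) ^ (n + 1))
    rw [hk, hq]
    have h2 : (X - C a) ∣ q + (derivative g).eval B * C c := by
      rw [Polynomial.dvd_iff_isRoot, IsRoot.def, eval_add, eval_mul, ev_key, eval_C, hB,
        ← derivative_map, ← hd]
      simp only [c]
      field_simp
      ring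
    obtain ⟨r, hr⟩ := h2
    refine ⟨r + k * C c ^ 2 * (X - C a) ^ n, ?_⟩
    have : (X - C a) ^ (n + 1) * q + eval B (derivative g) * (C c * (X - C a) ^ (n + 1)) +
        k * (C c * (X - C a) ^ (n + 1)) ^ 2 = (X - C a) ^ (n + 1) * (q + (derivative g).eval B * C c)
        + k * C c ^ 2 * (X - C a) ^ n * (X - C a) ^ (n + 1 + 1) := by ring
    rw [this, hr]
    ring

section
variable {κ N : Type} [Field κ] [Field N] [Algebra κ N]

/-- the constants in the valuation ring -/
noncomputable def phi (P : Place κ N) : κ →+* P.O := (algebraMap κ N).codRestrict P.O P.reg_const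

theorem reg_t {P : Place κ N} {t : N} {a : κ} (h : 0 < P.ord (t - algebraMap κ N a)) : P.Reg t := by
  have := P.reg_add (Or.inr h.le : P.Reg (t - algebraMap κ N a)) (P.reg_const a)
  rwa [sub_add_cancel] at this

theorem reg_al {P : Place κ N} {t : N} {a : κ}
    (h : t = algebraMap κ N a ∨ 0 < P.ord (t - algebraMap κ N a)) : P.Reg t := by
  rcases h with h | h
  · rw [h]; exact P.reg_const a
  · exact reg_t h

theorem res_eq {P : Place κ N} {t : N} {a : κ}
    (h : t = algebraMap κ N a ∨ 0 < P.ord (t - algebraMap κ N a)) (ht : P.Reg t) :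
    P.resHom ⟨t, ht⟩ = P.resHom (phi P a) := by
  rw [← sub_eq_zero, ← map_sub]
  have h2 : P.Reg (t - algebraMap κ N a) := by
    rw [sub_eq_add_neg]
    exact P.reg_add ht (P.reg_neg (P.reg_const a))
  have h3 : (⟨t, ht⟩ - phi P a : P.O) = ⟨t - algebraMap κ N a, h2⟩ := rfl
  rw [h3, ← P.red_of_reg h2, P.red_eq_zero_iff h2, sub_eq_zero]
  exact h

variable (P : Place κ N)

/-- the polynomials in `t` -/
noncomputable def psi (t' : P.O) : κ[X] →+* P.O := eval₂RingHom (phi P) t'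

theorem psi_coe (t' : P.O) (q : κ[X]) : ((psi P t' q : P.O) : N) = aeval (t' : N) q := by
  have h : (P.O.subtype).comp (psi P t') = (aeval (t' : N) : κ[X] →ₐ[κ] N).toRingHom := by
    refine Polynomial.ringHom_ext ?_ ?_
    · intro c
      simp [psi, phi] <;> rfl
    · simp [psi]
  exact DFunLike.congr_fun h q

theorem psi_coe' (t' : P.O) (q : κ[X]) :
    ((psi P t' q : P.O) : N) = eval₂RingHom (algebraMap κ N) (t' : N) q := by
  rw [psi_coe]; rfl

theorem ev_coe (t' α' : P.O) (p : κ[X][X]) :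
    ((eval₂ (psi P t') α' p : P.O) : N) = ev2 (algebraMap κ N) (t' : N) (α' : N) p := by
  have h : (P.O.subtype).comp (psi P t') = eval₂RingHom (algebraMap κ N) (t' : N) := by
    ext q
    · simp [psi, phi] <;> rfl
    · simp [psi]
  have h2 := Polynomial.hom_eval₂ p (psi P t') P.O.subtype α'
  rw [h] at h2
  exact h2

theorem psi_res {t : N} {a : κ} (h : 0 < P.ord (t - algebraMap κ N a)) (ht : P.Reg t) (q : κ[X]) :
    P.resHom (psi P ⟨t, ht⟩ q) = P.resHom (phi P (q.eval a)) := by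
  have h1 : P.resHom.comp (psi P ⟨t, ht⟩) = (P.resHom.comp (phi P)).comp (evalRingHom a) := by
    refine Polynomial.ringHom_ext ?_ ?_
    · intro c
      simp [psi]
    · simp only [psi, RingHom.comp_apply, coe_eval₂RingHom, eval₂_X, coe_evalRingHom, eval_X]
      exact res_eq (Or.inr h) ht
  exact DFunLike.congr_fun h1 q

theorem isUnit_of_res {u : P.O} (h : P.resHom u ≠ 0) : IsUnit u := by
  by_contra hc
  apply h
  change IsLocalRing.residue P.O _ = 0
  rw [IsLocalRing.residue_eq_zero_iff]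
  exact hc

theorem resphi_ne {c : κ} (hc : c ≠ 0) : P.resHom (phi P c) ≠ 0 := by
  have := (map_ne_zero (P.resHom.comp (phi P))).2 hc
  exact this

theorem ord_eval {t : N} {a : κ} (h : 0 < P.ord (t - algebraMap κ N a)) {q : κ[X]}
    (hq : q.eval a ≠ 0) : aeval t q ≠ 0 ∧ P.ord (aeval t q) = 0 := by
  have ht := reg_t h
  have h1 : IsUnit (psi P ⟨t, ht⟩ q) := by
    apply isUnit_of_res
    rw [psi_res P h ht]
    exact resphi_ne P hq
  have h2 : P.Reg (aeval t q) := by
    have := (psi P ⟨t, ht⟩ q).2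
    rw [psi_coe] at this
    exact this
  have h3 : psi P ⟨t, ht⟩ q = ⟨aeval t q, h2⟩ := Subtype.ext (psi_coe P _ q)
  rw [h3] at h1
  exact (P.isUnit_O_iff h2).1 h1

theorem lemA {t α : N} {g : κ[X][X]} (hg : ev2 (algebraMap κ N) t α g = 0) {a b : κ}
    (h1 : ((g.map (evalRingHom a)).derivative).eval b ≠ 0)
    (hP : 0 < P.ord (t - algebraMap κ N a))
    (hα : α = algebraMap κ N b ∨ 0 < P.ord (α - algebraMap κ N b)) {n : ℕ} {B : κ[X]}
    (hB : B.eval a = b) (hd : (X - C a) ^ (n + 1) ∣ g.eval B) (p : κ[X][X]) :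
    ∃ y : N, P.Reg y ∧ ev2 (algebraMap κ N) t α p - aeval t (p.eval B) =
      (t - algebraMap κ N a) ^ (n + 1) * y := by
  have ht := reg_t hP
  have hα' := reg_al hα
  set t' : P.O := ⟨t, ht⟩ with ht'
  set α' : P.O := ⟨α, hα'⟩ with hα''
  set ψ := psi P t' with hψ
  set β' := ψ B with hβ
  have e0 : (g.map ψ).eval α' = 0 := by
    rw [eval_map]
    apply Subtype.ext
    rw [ev_coe]
    exact hg
  have e1 : (g.map ψ).eval β' = ψ (g.eval B) := by
    rw [eval_map]
    exact eval₂_at_apply ψ B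
  obtain ⟨k, hk⟩ := Polynomial.binomExpansion (g.map ψ) α' (β' - α')
  rw [add_sub_cancel, e0, e1, zero_add] at hk
  have e2 : ψ (g.eval B) = (β' - α') * ((g.map ψ).derivative.eval α' + k * (β' - α')) := by
    rw [hk]; ring
  have e3 : P.resHom (β' - α') = 0 := by
    rw [map_sub, hβ, hψ, psi_res P hP ht, hB, res_eq hα hα', sub_self]
  have e4 : P.resHom ((g.map ψ).derivative.eval α') =
      P.resHom (phi P ((g.map (evalRingHom a)).derivative.eval b)) := by
    rw [derivative_map, derivative_map, eval_map, eval_map, Polynomial.hom_eval₂]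
    have h5 : P.resHom.comp ψ = (P.resHom.comp (phi P)).comp (evalRingHom a) :=
      RingHom.ext fun q => psi_res P hP ht q
    rw [h5, res_eq hα hα']
    exact (Polynomial.hom_eval₂ (derivative g) (evalRingHom a) (P.resHom.comp (phi P)) b).symm
  have e5 : IsUnit ((g.map ψ).derivative.eval α' + k * (β' - α')) := by
    apply isUnit_of_res
    rw [map_add, map_mul, e3, mul_zero, add_zero, e4]
    exact resphi_ne P h1
  have e6 : (t' - phi P a) ^ (n + 1) ∣ β' - α' := by
    rw [← e5.dvd_mul_right, ← e2]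
    have := map_dvd ψ hd
    rw [map_pow, map_sub] at this
    have h7 : ψ X = t' := by simp [hψ, psi]
    have h8 : ψ (C a) = phi P a := by simp [hψ, psi]
    rwa [h7, h8] at this
  have e7 : (t' - phi P a) ^ (n + 1) ∣ (p.map ψ).eval α' - (p.map ψ).eval β' := by
    refine dvd_trans ?_ (Polynomial.sub_dvd_eval_sub α' β' _)
    rw [← neg_sub β' α']
    exact (dvd_neg).2 e6
  obtain ⟨y, hy⟩ := e7
  refine ⟨y, y.2, ?_⟩
  have h9 := congrArg (fun z : P.O => (z : N)) hy
  simp only [eval_map] at h9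
  rw [hβ, Polynomial.eval₂_at_apply] at h9
  have h10 : ((eval₂ ψ α' p - ψ (eval B p) : P.O) : N) =
      (eval₂ ψ α' p : P.O) - (ψ (eval B p) : P.O) := rfl
  rw [h10, hψ, ev_coe, psi_coe] at h9
  exact h9

/-- the orders of the elements of `κ[t, α]` -/
theorem ord_poly {t α : N} {g : κ[X][X]} (hg : ev2 (algebraMap κ N) t α g = 0) {a b : κ}
    (h0 : (g.map (evalRingHom a)).eval b = 0)
    (h1 : ((g.map (evalRingHom a)).derivative).eval b ≠ 0) (P Q : Place κ N)
    (hP : 0 < P.ord (t - algebraMap κ N a))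
    (hα : α = algebraMap κ N b ∨ 0 < P.ord (α - algebraMap κ N b))
    (hQ : 0 < Q.ord (t - algebraMap κ N a))
    (hβ : α = algebraMap κ N b ∨ 0 < Q.ord (α - algebraMap κ N b)) (p : κ[X][X])
    (hp : ev2 (algebraMap κ N) t α p ≠ 0) :
    ∃ m : ℤ, P.ord (ev2 (algebraMap κ N) t α p) = m * P.ord (t - algebraMap κ N a) ∧
      Q.ord (ev2 (algebraMap κ N) t α p) = m * Q.ord (t - algebraMap κ N a) := by
  set x := ev2 (algebraMap κ N) t α p with hx
  obtain ⟨n, hn⟩ : ∃ n : ℕ, P.ord x < n + 1 ∧ Q.ord x < n + 1 :=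
    ⟨(P.ord x).toNat + (Q.ord x).toNat, by push_cast; omega, by push_cast; omega⟩
  obtain ⟨B, hB, hd⟩ := approx g a b h0 h1 n
  have key : ∀ (R : Place κ N), 0 < R.ord (t - algebraMap κ N a) →
      (α = algebraMap κ N b ∨ 0 < R.ord (α - algebraMap κ N b)) → R.ord x < n + 1 →
      aeval t (p.eval B) ≠ 0 ∧ R.ord (aeval t (p.eval B)) = R.ord x := by
    intro R hR hR' hlt
    obtain ⟨y, hy, hy'⟩ := lemA R hg h1 hR hR' hB hd p
    rw [← hx] at hy'
    by_cases hy0 : y = 0
    · rw [hy0, mul_zero, sub_eq_zero] at hy'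
      rw [← hy']
      exact ⟨hp, rfl⟩
    · have ht0 : t - algebraMap κ N a ≠ 0 := by
        intro h
        rw [h, R.ord_zero] at hR
        exact lt_irrefl _ hR
      have hz0 : -((t - algebraMap κ N a) ^ (n + 1) * y) ≠ 0 :=
        neg_ne_zero.2 (mul_ne_zero (pow_ne_zero _ ht0) hy0)
      have hord : R.ord x < R.ord (-((t - algebraMap κ N a) ^ (n + 1) * y)) := by
        rw [R.ord_neg, R.ord_mul (pow_ne_zero _ ht0) hy0, R.ord_pow]
        have h5 := (R.reg_iff hy0).1 hy
        have h6 : (1 : ℤ) * ((n + 1 : ℕ) : ℤ) ≤ ((n + 1 : ℕ) : ℤ) * R.ord (t - algebraMap κ N a) := by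
          rw [mul_comm]
          exact mul_le_mul_of_nonneg_left (by omega) (by positivity)
        push_cast at h6 ⊢
        linarith
      obtain ⟨h7, h8⟩ := R.ord_add_eq hp hz0 hord
      have h9 : x + -((t - algebraMap κ N a) ^ (n + 1) * y) = aeval t (p.eval B) := by
        rw [← hy']; ring
      rw [h9] at h7 h8
      exact ⟨h7, h8⟩
  obtain ⟨kP, kP'⟩ := key P hP hα hn.1
  obtain ⟨kQ, kQ'⟩ := key Q hQ hβ hn.2
  set h := p.eval B with hh
  have hne : h ≠ 0 := by
    intro h2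
    rw [h2, map_zero] at kP
    exact kP rfl
  obtain ⟨q, hq, hq'⟩ := exists_eq_pow_rootMultiplicity_mul_and_not_dvd h hne a
  have hqa : q.eval a ≠ 0 := by
    rwa [Polynomial.dvd_iff_isRoot, IsRoot.def] at hq'
  refine ⟨(h.rootMultiplicity a : ℤ), ?_, ?_⟩
  · rw [← kP', hq, map_mul, map_pow]
    obtain ⟨e1, e2⟩ := ord_eval P hP hqa
    have ht0 : t - algebraMap κ N a ≠ 0 := by
      intro h
      rw [h, P.ord_zero] at hP
      exact lt_irrefl _ hP
    have e3 : aeval t (X - C a) = t - algebraMap κ N a := by simp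
    rw [e3, P.ord_mul (pow_ne_zero _ ht0) e1, P.ord_pow, e2, add_zero, ← hq]
  · rw [← kQ', hq, map_mul, map_pow]
    obtain ⟨e1, e2⟩ := ord_eval Q hQ hqa
    have ht0 : t - algebraMap κ N a ≠ 0 := by
      intro h
      rw [h, Q.ord_zero] at hQ
      exact lt_irrefl _ hQ
    have e3 : aeval t (X - C a) = t - algebraMap κ N a := by simp
    rw [e3, Q.ord_mul (pow_ne_zero _ ht0) e1, Q.ord_pow, e2, add_zero, ← hq]

theorem exists_ev2 {t α : N} {x : N} (hx : x ∈ Algebra.adjoin κ ({t, α} : Set N)) :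
    ∃ p : κ[X][X], x = ev2 (algebraMap κ N) t α p := by
  induction hx using Algebra.adjoin_induction with
  | mem x hx =>
    simp only [Set.mem_insert_iff, Set.mem_singleton_iff] at hx
    rcases hx with rfl | rfl
    · exact ⟨C X, by simp [ev2]⟩
    · exact ⟨X, by simp [ev2]⟩
  | algebraMap r => exact ⟨C (C r), by simp [ev2]⟩
  | add x y _ _ hx hy =>
    obtain ⟨p, rfl⟩ := hx
    obtain ⟨q, rfl⟩ := hy
    exact ⟨p + q, by simp [ev2]⟩
  | mul x y _ _ hx hy =>
    obtain ⟨p, rfl⟩ := hx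
    obtain ⟨q, rfl⟩ := hy
    exact ⟨p * q, by simp [ev2]⟩

end

theorem main : S_UPL := by
  intro κ N _ _ _ _ t α _ hadj g hg a b h0 h1 P hP hα
  have key : ∀ (Q : Place κ N), 0 < Q.ord (t - algebraMap κ N a) →
      (α = algebraMap κ N b ∨ 0 < Q.ord (α - algebraMap κ N b)) → ∀ x : N, x ≠ 0 →
      ∃ m : ℤ, P.ord x = m * P.ord (t - algebraMap κ N a) ∧
        Q.ord x = m * Q.ord (t - algebraMap κ N a) := by
    intro Q hQ hβ x hx
    have hx' : x ∈ IntermediateField.adjoin κ ({t, α} : Set N) := by rw [hadj]; trivial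
    rw [IntermediateField.mem_adjoin_iff_div] at hx'
    obtain ⟨r, hr, s, hs, rfl⟩ := hx'
    have hr0 : r ≠ 0 := by rintro rfl; simp at hx
    have hs0 : s ≠ 0 := by rintro rfl; simp at hx
    obtain ⟨p, rfl⟩ := exists_ev2 hr
    obtain ⟨q, rfl⟩ := exists_ev2 hs
    obtain ⟨m, hm, hm'⟩ := ord_poly hg h0 h1 P Q hP hα hQ hβ p hr0
    obtain ⟨l, hl, hl'⟩ := ord_poly hg h0 h1 P Q hP hα hQ hβ q hs0
    refine ⟨m - l, ?_, ?_⟩
    · rw [P.ord_div hr0 hs0, hm, hl]; ring
    · rw [Q.ord_div hr0 hs0, hm', hl']; ring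
  have hone : ∀ (Q : Place κ N), 0 < Q.ord (t - algebraMap κ N a) →
      (α = algebraMap κ N b ∨ 0 < Q.ord (α - algebraMap κ N b)) →
      Q.ord (t - algebraMap κ N a) = 1 := by
    intro Q hQ hβ
    obtain ⟨u, hu, hu'⟩ := Q.surj
    obtain ⟨m, -, hm⟩ := key Q hQ hβ u hu
    rw [hu'] at hm
    exact Int.eq_one_of_dvd_one hQ.le ⟨m, by rw [hm]; ring⟩
  refine ⟨hone P hP hα, ?_⟩
  intro Q hQ hβ
  apply Place.eq_of_le
  intro f hf hf'
  obtain ⟨m, hm, hm'⟩ := key Q hQ hβ f hf
  rw [hone Q hQ hβ] at hm'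
  rw [hone P hP hα] at hm
  rw [hm, ← hm']
  exact hf'

end Pool.Agent.Helper31.RG.UPL
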